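import Mathlib
import Pool.Agent.H14.SQ.Q7

/-!
# MP_2fbb8b, Q1 for `n ≤ (3 / 2) √(p q)`

Let `X` be the cubical complex of the integer cubes of `(ℝ²)ⁿ` contained in the configuration space `C(n; p, q)` of `n`
labelled unit squares in a `p × q` rectangle.  If the `j`-th integral homology group of `X` is not zero, then `j < n`; if
`j = n - 1`, then `n ≤ p` and `n ≤ q`; and if `4 n ^ 2 ≤ 9 p q`, then the inequality of Q1 holds.
-/

set_option autoImplicit false

namespace Pool.Agent.Results.MP_2fbb8b_gt.SparseRange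

open Pool.Agent.H14.SQ

/-- Q1 for all `n`, `p`, `q` with `4 n ^ 2 ≤ 9 p q`, in all degrees. For all `n`, `p`, `q` the homology vanishes in the degrees
`j ≥ n`, and in the degree `n - 1` if `n > min p q`. -/
theorem result (n p q j : ℕ) (hn : 0 < n) (hp : 0 < p) (hq : 0 < q) (h : HomologyNonzero n p q j) :
    j < n ∧ (j + 1 = n → n ≤ p ∧ n ≤ q) ∧
    (4 * n ^ 2 ≤ 9 * (p * q) →
      (j : ℝ) / (p * q) ≤ min ((n : ℝ) / (p * q) - 8 / 9 * ((n : ℝ) / (p * q)) ^ 2)
        (min (1 - (n : ℝ) / (p * q)) (1 / 4))) :=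
  ⟨deg_lt hn h, deg_pred' hn h, fun h4 => real_bound4 hn hp hq h4 (deg_lt hn h) (deg_pred' hn h)⟩

end Pool.Agent.Results.MP_2fbb8b_gt.SparseRange
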