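import Mathlib
import Pool.Agent.H14.SQ.E

/-!
# MP_2fbb8b, Q1: the degrees `j ≥ pq - n`

Let `X` be the cubical complex of the integer cubes of `(ℝ²)ⁿ` contained in the configuration space `C(n; p, q)` of `n`
labelled unit squares in a `p × q` rectangle.  If `j ≥ pq - n` and the `j`-th integral homology group of `X` is not zero,
then the inequality of Q1 holds.
-/

set_option autoImplicit false

namespace Pool.Agent.Results.MP_2fbb8b_gt.TopDegree

open Pool.Agent.H14.SQ

/-- Q1 for the cubical complex of `C(n; p, q)` in the degrees `j ≥ pq - n`; more precisely every non-zero cycle of such a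
degree satisfies `j = pq - n ≤ pq / 4`. -/
theorem result (n p q j : ℕ) (hp : 0 < p) (hq : 0 < q) (hj : p * q ≤ n + j) :
    (∀ z : Cube n →₀ ℤ, IsChain p q j z → bd z = 0 → z ≠ 0 → n + j = p * q ∧ 4 * j ≤ p * q) ∧
    (HomologyNonzero n p q j →
      (j : ℝ) / (p * q) ≤ min ((n : ℝ) / (p * q) - 8 / 9 * ((n : ℝ) / (p * q)) ^ 2)
        (min (1 - (n : ℝ) / (p * q)) (1 / 4))) := by
  refine ⟨fun z hc hz h0 => bound hz hc h0 hj, ?_⟩
  rintro ⟨z, hc, hz, hb⟩
  have h0 : z ≠ 0 := by
    rintro rfl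
    exact hb ⟨0, fun Q hQ => by simp at hQ, by simp [bd]⟩
  obtain ⟨h1, h2⟩ := bound hz hc h0 hj
  exact real_bound hp hq h1 h2

end Pool.Agent.Results.MP_2fbb8b_gt.TopDegree
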