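import Mathlib
import Pool.Agent.H14.SQ.S

/-!
# MP_2fbb8b, Q1 for the rectangles with a side of length at most 2

Let `X` be the cubical complex of the integer cubes of `(ℝ²)ⁿ` contained in the configuration space `C(n; p, q)` of `n`
labelled unit squares in a `p × q` rectangle, where `min p q ≤ 2`.  If the `j`-th integral homology group of `X` is not
zero, then the inequality of Q1 holds.
-/

set_option autoImplicit false

namespace Pool.Agent.Results.MP_2fbb8b_gt.WidthTwo

open Pool.Agent.H14.SQ

/-- Q1 for the cubical complexes of the configuration spaces `C(n; p, q)` with `min p q ≤ 2`, in all degrees. -/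
theorem result (n p q j : ℕ) (hp : 0 < p) (hq : 0 < q) (h2 : min p q ≤ 2) (h : HomologyNonzero n p q j) :
    (j : ℝ) / (p * q) ≤ min ((n : ℝ) / (p * q) - 8 / 9 * ((n : ℝ) / (p * q)) ^ 2)
      (min (1 - (n : ℝ) / (p * q)) (1 / 4)) :=
  side_two hp hq h2 h

end Pool.Agent.Results.MP_2fbb8b_gt.WidthTwo
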